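import Pool.Agent.Helper40.CC.Word

/-!
# The cell of a word lies in the hull of few vertices
-/

namespace Helper40.CC

open Finset

lemma four_mul_le (d : ℕ) : 4 * d ≤ 16 ^ lev d := by
  have h1 : d < (Nat.sqrt d + 1) * (Nat.sqrt d + 1) := Nat.lt_succ_sqrt d
  have h2 : ∀ n : ℕ, 2 * (n + 1) ≤ 4 ^ (n + 1) := by
    intro n
    induction n with
    | zero => norm_num
    | succ n ih => rw [pow_succ]; omega
  have h3 := h2 (Nat.sqrt d)
  have h4 : (16 : ℕ) ^ lev d = 4 ^ (Nat.sqrt d + 1) * 4 ^ (Nat.sqrt d + 1) := by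
    unfold lev
    rw [← mul_pow]; norm_num
  rw [h4]
  calc 4 * d ≤ (2 * (Nat.sqrt d + 1)) * (2 * (Nat.sqrt d + 1)) := by nlinarith
    _ ≤ _ := Nat.mul_le_mul h3 h3

lemma geom_le (L : ℕ) : ∑ k ∈ range L, (4 : ℝ) ^ k / 16 ^ (k+1) ≤ 1/12 - 1/12 / 4 ^ L := by
  induction L with
  | zero => simp
  | succ L ih =>
    rw [Finset.sum_range_succ]
    have h : (4 : ℝ) ^ L / 16 ^ (L+1) = 1 / 16 / 4 ^ L := by
      have : (16 : ℝ) ^ (L+1) = 16 * (4 ^ L * 4 ^ L) := by
        rw [pow_succ, ← mul_pow]; norm_num; ring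
      rw [this]
      have h4 : (4 : ℝ) ^ L ≠ 0 := by positivity
      field_simp
    rw [h]
    have h5 : (1 : ℝ)/12/4^(L+1) = 1/48/4^L := by
      rw [pow_succ]
      have h4 : (4 : ℝ) ^ L ≠ 0 := by positivity
      field_simp; norm_num
    rw [h5]
    have h6 : (1 : ℝ)/12/4^L = 1/16/4^L + 1/48/4^L := by ring
    linarith

lemma sum_wt (d : ℕ) : ∑ b : Lab d, wt b ≤ 1/2 := by
  rw [Fintype.sum_sum_type, Fintype.sum_sigma]
  simp only [wt, Finset.sum_const, card_univ, Fintype.card_fin, nsmul_eq_mul]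
  have h1 : (d : ℝ) * (1 / 16 ^ lev d) ≤ 1/4 := by
    have h : ((4 * d : ℕ) : ℝ) ≤ ((16 ^ lev d : ℕ) : ℝ) := by exact_mod_cast four_mul_le d
    push_cast at h
    rw [mul_one_div, div_le_iff₀ (by positivity)]
    linarith
  have h2 : ∑ k : Fin (lev d), ((4 ^ (k : ℕ) : ℕ) : ℝ) * (1 / 16 ^ ((k : ℕ) + 1)) ≤ 1/12 := by
    rw [Fin.sum_univ_eq_sum_range (fun k => ((4 ^ k : ℕ) : ℝ) * (1 / 16 ^ (k + 1))) (lev d)]
    have h3 := geom_le (lev d)
    have h4 : (0 : ℝ) ≤ 1/12 / 4 ^ lev d := by positivity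
    refine le_trans (le_of_eq ?_) (h3.trans (by linarith))
    refine Finset.sum_congr rfl fun k _ => ?_
    push_cast
    ring
  linarith

lemma block_err (d k : ℕ) : (bs d k : ℝ) * (mesh d k) ^ 2 ≤ (1 / 16 ^ (k+1)) ^ 2 / 4 := by
  have h1 : bs d k ≤ (Nat.sqrt (bs d k) + 1) ^ 2 := by
    rw [sq]; exact (Nat.lt_succ_sqrt _).le
  have h2 : (1024 : ℝ) * bs d k ≤ (nl d k : ℝ) ^ 2 := by
    have : 1024 * bs d k ≤ (nl d k) ^ 2 := by
      unfold nl
      calc 1024 * bs d k ≤ 1024 * (Nat.sqrt (bs d k) + 1) ^ 2 := Nat.mul_le_mul_left _ h1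
        _ = _ := by ring
    exact_mod_cast this
  have h3 : (0 : ℝ) < nl d k := by exact_mod_cast nl_pos d k
  unfold mesh
  have h4 : (bs d k : ℝ) * (1 / (16 ^ k * nl d k)) ^ 2
      = (1 / 16 ^ (k+1)) ^ 2 / 4 * (1024 * bs d k / (nl d k) ^ 2) := by
    rw [pow_succ (16 : ℝ)]
    have h16 : (16 : ℝ) ^ k ≠ 0 := by positivity
    field_simp
    ring
  rw [h4]
  have h5 : 1024 * (bs d k : ℝ) / (nl d k) ^ 2 ≤ 1 := by
    rw [div_le_one (by positivity)]; exact h2
  exact mul_le_of_le_one_right (by positivity) h5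

lemma cell_cond {d : ℕ} (w : Fin d → Letter d) (x : Fin d → ℝ) (hx : ∀ i, Good (w i) (x i))
    (b : Lab d) : ∑ i with lab w i = b, (x i - corner (w i) - wt b / 2) ^ 2 ≤ (wt b) ^ 2 / 4 := by
  rcases b with j | ⟨k, b⟩
  · have hsub : (univ.filter fun i => lab w i = Sum.inl j) ⊆ {j} := by
      intro i hi
      simp only [mem_filter, mem_univ, true_and] at hi
      simpa using (lab_inl w i j hi).1
    rcases Finset.subset_singleton_iff.1 hsub with h | h
    · rw [h]; simp only [Finset.sum_empty]; positivity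
    · rw [h, Finset.sum_singleton]
      have hj : j ∈ univ.filter fun i => lab w i = Sum.inl j := by rw [h]; simp
      simp only [mem_filter, mem_univ, true_and] at hj
      have hw := (lab_inl w j j hj).2
      have hg := hx j
      rw [hw] at hg ⊢
      simp only [Good] at hg
      simp only [corner, wt]
      nlinarith [hg.1, hg.2]
  · have hterm : ∀ i ∈ univ.filter fun i => lab w i = Sum.inr ⟨k, b⟩,
        (x i - corner (w i) - wt (Sum.inr ⟨k, b⟩ : Lab d) / 2) ^ 2 ≤ (mesh d k) ^ 2 := by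
      intro i hi
      simp only [mem_filter, mem_univ, true_and] at hi
      obtain ⟨⟨n, hn⟩, -⟩ := lab_inr w i k b hi
      have hg := hx i
      rw [hn] at hg ⊢
      simp only [Good] at hg
      simp only [corner, wt]
      have := mesh_pos d k
      apply pow_le_pow_left₀ <;> linarith [hg.1, hg.2]
    refine (Finset.sum_le_sum hterm).trans ?_
    rw [Finset.sum_const, nsmul_eq_mul]
    refine le_trans ?_ (block_err d k)
    exact mul_le_mul_of_nonneg_right (by exact_mod_cast fiber_card w k b) (by positivity)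

/-- the cell of a word is in the hull of at most `6d+2` vertices of the cube -/
theorem word_cell {d : ℕ} (w : Fin d → Letter d) :
    ∃ V : Finset (Fin d → ℝ), V.card ≤ 6 * d + 2 ∧ (∀ v ∈ V, ∀ i, v i = 0 ∨ v i = 1) ∧
      (0 : Fin d → ℝ) ∈ V ∧ (∀ i, Pi.single i (1 : ℝ) ∈ V) ∧
      ∀ x : Fin d → ℝ, (∀ i, x i ≤ 1/2) → (∀ i, Good (w i) (x i)) →
        x ∈ convexHull ℝ (V : Set (Fin d → ℝ)) := by
  classical
  by_cases hex : ∃ x : Fin d → ℝ, (∀ i, x i ≤ 1/2) ∧ (∀ i, Good (w i) (x i))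
  · obtain ⟨x0, h1, h2⟩ := hex
    have ha : ∀ i, 0 ≤ corner (w i) ∧ corner (w i) ≤ 1/2 := by
      intro i
      have h3 := h1 i
      have h4 := h2 i
      rcases hw : w i with _ | ⟨k, n⟩
      · simp only [corner]; norm_num
      · rw [hw] at h4
        simp only [Good] at h4
        simp only [corner]
        have := mesh_pos d k
        have h5 : (0 : ℝ) < 1 / 16 ^ ((k : ℕ) + 1) / 2 := by positivity
        exact ⟨by positivity, by linarith⟩
    obtain ⟨V, hV1, hV2, hV3, hV4, hV5⟩ := labelled (lab w) wt wt_pos (sum_wt d)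
      (fun i => corner (w i)) ha
    exact ⟨V, hV1, hV2, hV3, hV4, fun x _ hx => hV5 x (cell_cond w x hx)⟩
  · obtain ⟨V, hV1, hV2, hV3, hV4, -⟩ := labelled (lab w) wt wt_pos (sum_wt d)
      (fun _ => 0) (fun i => by norm_num)
    exact ⟨V, hV1, hV2, hV3, hV4, fun x h h' => absurd ⟨x, h, h'⟩ hex⟩

end Helper40.CC
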