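import Mathlib
import Pool.Agent.Helper67.CubeDefs

/-!
# From a family of vertex sets to a cover by vertex simplices
-/

namespace Helper40.CC

open Finset Helper67.Cube

/-- an affinely independent subset of a spanning finite set extends to a simplex -/
lemma extend {d : ℕ} (V t : Finset (Fin d → ℝ)) (hV : affineSpan ℝ (V : Set (Fin d → ℝ)) = ⊤)
    (ht : t ⊆ V) (hi : AffineIndependent ℝ ((↑) : t → (Fin d → ℝ))) :
    ∃ t' : Finset (Fin d → ℝ), t ⊆ t' ∧ t' ⊆ V ∧ t'.card = d + 1 ∧
      AffineIndependent ℝ ((↑) : t' → (Fin d → ℝ)) := by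
  classical
  set 𝒞 : Finset (Finset (Fin d → ℝ)) := V.powerset.filter fun t' =>
    t ⊆ t' ∧ AffineIndependent ℝ ((↑) : t' → (Fin d → ℝ)) with h𝒞
  have hne : 𝒞.Nonempty := ⟨t, by simp [h𝒞, ht, hi]⟩
  obtain ⟨t', ht', hmax⟩ := 𝒞.exists_max_image Finset.card hne
  simp only [h𝒞, mem_filter, mem_powerset] at ht' hmax
  obtain ⟨h1, h2, h3⟩ := ht'
  have htop : affineSpan ℝ (t' : Set (Fin d → ℝ)) = ⊤ := by
    rw [eq_top_iff, ← hV, affineSpan_le]
    intro v hv
    by_contra hcon
    have hv' : v ∉ t' := fun h => hcon (mem_affineSpan ℝ (by exact_mod_cast h))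
    have hind : AffineIndependent ℝ ((↑) : {x // x ∈ insert v t'} → (Fin d → ℝ)) := by
      refine AffineIndependent.affineIndependent_of_notMem_span
        (i := ⟨v, mem_insert_self v t'⟩) ?_ ?_
      · have hmem : ∀ y : {y : {x // x ∈ insert v t'} //
            y ≠ ⟨v, mem_insert_self v t'⟩}, (y.1 : Fin d → ℝ) ∈ t' := by
          rintro ⟨⟨y, hy⟩, hy'⟩
          rcases mem_insert.1 hy with h | h
          · exact absurd (Subtype.ext h) hy'
          · exact h
        exact h3.comp_embedding ⟨fun y => ⟨y.1.1, hmem y⟩, fun y y' h => by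
          apply Subtype.ext; apply Subtype.ext
          simpa using h⟩
      · intro h
        refine hcon (affineSpan_mono ℝ ?_ h)
        rintro _ ⟨⟨y, hy⟩, hy', rfl⟩
        rcases mem_insert.1 hy with h | h
        · exact absurd (Subtype.ext h) hy'
        · exact_mod_cast h
    have := hmax (insert v t') ⟨insert_subset (by exact_mod_cast hv) h1,
      h2.trans (subset_insert v t'), hind⟩
    rw [card_insert_of_notMem hv'] at this
    omega
  refine ⟨t', h2, h1, ?_, h3⟩
  have h4 := h3.affineSpan_eq_top_iff_card_eq_finrank_add_one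
  rw [Subtype.range_coe_subtype] at h4
  simpa using h4.1 (by simpa using htop)

theorem cover_of_sets {d : ℕ} {I : Type*} [Fintype I] (V : I → Finset (Fin d → ℝ)) (M : ℕ)
    (hM : ∀ w, (V w).card ≤ M) (hV : ∀ w, ∀ v ∈ V w, ∀ i, v i = 0 ∨ v i = 1)
    (hspan : ∀ w, affineSpan ℝ (V w : Set (Fin d → ℝ)) = ⊤)
    (hcov : ∀ x ∈ cube d, ∃ w, x ∈ convexHull ℝ (V w : Set (Fin d → ℝ))) :
    ∃ (N : ℕ) (W : Fin N → Fin (d+1) → Fin d → ℝ), IsCover W ∧ IsVertexFamily W ∧
      N ≤ Fintype.card I * 2 ^ M := by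
  classical
  set 𝒯 : Finset (Finset (Fin d → ℝ)) := (univ.biUnion fun w => (V w).powerset).filter fun t =>
    t.card = d + 1 ∧ AffineIndependent ℝ ((↑) : t → (Fin d → ℝ)) with h𝒯
  have hcard : 𝒯.card ≤ Fintype.card I * 2 ^ M := by
    refine (Finset.card_filter_le _ _).trans (Finset.card_biUnion_le.trans ?_)
    refine (Finset.sum_le_sum (g := fun _ => 2 ^ M) fun w _ => ?_).trans ?_
    · rw [card_powerset]
      exact Nat.pow_le_pow_right (by norm_num) (hM w)
    · simp
  have hT : ∀ T : 𝒯, (T : Finset (Fin d → ℝ)).card = d + 1 := by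
    rintro ⟨T, hT⟩
    simp only [h𝒯, mem_filter] at hT
    exact hT.2.1
  let e : ∀ T : 𝒯, Fin (d+1) ≃ (T : Finset (Fin d → ℝ)) := fun T =>
    (Finset.equivFinOfCardEq (hT T)).symm
  let W : Fin 𝒯.card → Fin (d+1) → Fin d → ℝ := fun s j => (e (𝒯.equivFin.symm s) j : Fin d → ℝ)
  have hrange : ∀ s, Set.range (W s) = ((𝒯.equivFin.symm s : Finset (Fin d → ℝ)) :
      Set (Fin d → ℝ)) := by
    intro s
    ext v
    constructor
    · rintro ⟨j, rfl⟩
      exact_mod_cast (e (𝒯.equivFin.symm s) j).2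
    · intro hv
      refine ⟨(e (𝒯.equivFin.symm s)).symm ⟨v, by exact_mod_cast hv⟩, ?_⟩
      simp [W]
  have hsub : ∀ s, ∃ w, ((𝒯.equivFin.symm s : Finset (Fin d → ℝ))) ⊆ V w := by
    intro s
    have h := (𝒯.equivFin.symm s).2
    simp only [h𝒯, mem_filter, mem_biUnion, mem_univ, true_and, mem_powerset] at h
    exact h.1
  have hvert : IsVertexFamily W := by
    intro s i j
    obtain ⟨w, hw⟩ := hsub s
    exact hV w _ (hw (e (𝒯.equivFin.symm s) i).2) j
  refine ⟨𝒯.card, W, ⟨?_, ?_⟩, hvert, hcard⟩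
  · intro s
    have h := (𝒯.equivFin.symm s).2
    simp only [h𝒯, mem_filter] at h
    exact h.2.2.comp_embedding (e (𝒯.equivFin.symm s)).toEmbedding
  · apply Set.Subset.antisymm
    · refine Set.iUnion_subset fun s => ?_
      refine convexHull_min ?_ ?_
      · rintro _ ⟨j, rfl⟩ i
        rcases hvert s j i with h | h <;> rw [h] <;> norm_num
      · have : cube d = Set.Icc 0 1 := by
          ext x; simp [cube, Pi.le_def, forall_and]
        rw [this]
        exact convex_Icc 0 1
    · intro x hx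
      obtain ⟨w, hw⟩ := hcov x hx
      rw [convexHull_eq_union] at hw
      simp only [exists_prop, Set.mem_iUnion] at hw
      obtain ⟨t, h1, h2, h3⟩ := hw
      obtain ⟨t', h4, h5, h6, h7⟩ := extend (V w) t (hspan w) (by exact_mod_cast h1) h2
      have hmem : t' ∈ 𝒯 := by
        simp only [h𝒯, mem_filter, mem_biUnion, mem_univ, true_and, mem_powerset]
        exact ⟨⟨w, h5⟩, h6, h7⟩
      refine Set.mem_iUnion.2 ⟨𝒯.equivFin ⟨t', hmem⟩, ?_⟩
      unfold body
      rw [hrange]
      simp only [Equiv.symm_apply_apply]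
      exact convexHull_mono (by exact_mod_cast h4) h3

end Helper40.CC
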