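import Pool.Agent.Helper40.CC.Cell
import Pool.Agent.Helper40.CC.Fam

/-!
# Counting words; the upper bound
-/

namespace Helper40.CC

open Finset Helper67.Cube

lemma card_letter (d : ℕ) : Fintype.card (Letter d) = 1 + ∑ k ∈ range (lev d), nl d k := by
  rw [Fintype.card_option, Fintype.card_sigma]
  simp only [Fintype.card_fin]
  rw [Fin.sum_univ_eq_sum_range (fun k => nl d k) (lev d), add_comm]

lemma nl_le (d k : ℕ) : (nl d k : ℝ) ≤ 32 * (Real.sqrt d / 2 ^ k + 2) := by
  unfold nl
  have h1 : ((Nat.sqrt (bs d k) : ℕ) : ℝ) ≤ Real.sqrt d / 2 ^ k + 1 := by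
    have h2 : ((Nat.sqrt (bs d k) : ℕ) : ℝ) ≤ Real.sqrt (bs d k) := Real.nat_sqrt_le_real_sqrt
    have h3 : Real.sqrt (bs d k) ≤ Real.sqrt d / 2 ^ k + 1 := by
      have h0 : 0 ≤ Real.sqrt d / 2 ^ k := by positivity
      apply Real.sqrt_le_iff.2 ⟨by linarith, ?_⟩
      have h4 : ((bs d k : ℕ) : ℝ) ≤ d / 4 ^ k + 1 := by
        unfold bs
        push_cast
        have := @Nat.cast_div_le ℝ _ _ _ d (4 ^ k)
        push_cast at this
        linarith
      have h5 : (Real.sqrt d / 2 ^ k) ^ 2 = d / 4 ^ k := by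
        rw [div_pow, Real.sq_sqrt (by positivity), ← pow_mul, mul_comm k 2, pow_mul]
        norm_num
      nlinarith
    exact h2.trans h3
  push_cast
  linarith

lemma card_letter_le (d : ℕ) (hd : 1 ≤ d) :
    (Fintype.card (Letter d) : ℝ) ≤ 193 * Real.sqrt d := by
  have hd' : (1 : ℝ) ≤ Real.sqrt d := by
    rw [Real.one_le_sqrt]; exact_mod_cast hd
  rw [card_letter]
  push_cast
  have h1 : ∑ k ∈ range (lev d), (nl d k : ℝ) ≤ 64 * Real.sqrt d + 64 * lev d := by
    have h2 : ∀ L : ℕ, ∑ k ∈ range L, (32 * (Real.sqrt d / 2 ^ k + 2))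
        = 64 * Real.sqrt d - 64 * Real.sqrt d / 2 ^ L + 64 * L := by
      intro L
      induction L with
      | zero => simp
      | succ L ih =>
        rw [Finset.sum_range_succ, ih, pow_succ]
        push_cast
        field_simp
        ring
    refine (Finset.sum_le_sum fun k _ => nl_le d k).trans ?_
    rw [h2]
    have : 0 ≤ 64 * Real.sqrt d / 2 ^ (lev d) := by positivity
    linarith
  have h3 : ((lev d : ℕ) : ℝ) ≤ 2 * Real.sqrt d := by
    unfold lev
    push_cast
    have : ((Nat.sqrt d : ℕ) : ℝ) ≤ Real.sqrt d := Real.nat_sqrt_le_real_sqrt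
    linarith
  linarith

/-- reflection of the coordinates in `F` -/
noncomputable def refl {d : ℕ} (F : Finset (Fin d)) : (Fin d → ℝ) →ᵃ[ℝ] (Fin d → ℝ) where
  toFun x i := if i ∈ F then 1 - x i else x i
  linear :=
    { toFun := fun x i => if i ∈ F then - x i else x i
      map_add' := by
        intro x y; ext i; simp only [Pi.add_apply]
        split_ifs <;> ring
      map_smul' := by
        intro c x; ext i; simp only [Pi.smul_apply, smul_eq_mul, RingHom.id_apply]
        split_ifs <;> ring }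
  map_vadd' := by
    intro p v; ext i
    simp only [vadd_eq_add, Pi.add_apply, LinearMap.coe_mk, AddHom.coe_mk]
    split_ifs <;> ring

lemma refl_apply {d : ℕ} (F : Finset (Fin d)) (x : Fin d → ℝ) (i : Fin d) :
    refl F x i = if i ∈ F then 1 - x i else x i := rfl

lemma refl_refl {d : ℕ} (F : Finset (Fin d)) (x : Fin d → ℝ) : refl F (refl F x) = x := by
  ext i
  simp only [refl_apply]
  split_ifs <;> ring

lemma span_top {d : ℕ} (V : Finset (Fin d → ℝ)) (h0 : (0 : Fin d → ℝ) ∈ V)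
    (h1 : ∀ i, Pi.single i (1 : ℝ) ∈ V) : affineSpan ℝ (V : Set (Fin d → ℝ)) = ⊤ := by
  have h0' : (0 : Fin d → ℝ) ∈ affineSpan ℝ (V : Set (Fin d → ℝ)) :=
    mem_affineSpan ℝ (by exact_mod_cast h0)
  have hdir : (affineSpan ℝ (V : Set (Fin d → ℝ))).direction = ⊤ := by
    rw [eq_top_iff]
    rw [← (Pi.basisFun ℝ (Fin d)).span_eq, Submodule.span_le]
    rintro _ ⟨i, rfl⟩
    have h2 : Pi.single i (1 : ℝ) ∈ affineSpan ℝ (V : Set (Fin d → ℝ)) :=
      mem_affineSpan ℝ (by exact_mod_cast h1 i)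
    have := AffineSubspace.vsub_mem_direction h2 h0'
    simpa using this
  exact (AffineSubspace.direction_eq_top_iff_of_nonempty ⟨0, h0'⟩).1 hdir

/-- the upper bound -/
theorem upper (d : ℕ) (hd : 1 ≤ d) :
    ∃ (N : ℕ) (W : Fin N → Fin (d+1) → Fin d → ℝ), IsCover W ∧ IsVertexFamily W ∧
      (N : ℝ) ≤ (10 ^ 5 * Real.sqrt d) ^ d := by
  classical
  choose V hV1 hV2 hV3 hV4 hV5 using fun w : Fin d → Letter d => word_cell w
  set V' : Finset (Fin d) × (Fin d → Letter d) → Finset (Fin d → ℝ) :=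
    fun p => (V p.2).image (refl p.1) with hV'
  have e1 : ∀ p, (V' p).card ≤ 6 * d + 2 := fun p => Finset.card_image_le.trans (hV1 p.2)
  have e2 : ∀ p, ∀ v ∈ V' p, ∀ i, v i = 0 ∨ v i = 1 := by
    intro p v hv i
    obtain ⟨u, hu, rfl⟩ := Finset.mem_image.1 hv
    rw [refl_apply]
    rcases hV2 p.2 u hu i with h | h
    · rw [h]
      split_ifs
      · right; norm_num
      · left; rfl
    · rw [h]
      split_ifs
      · left; norm_num
      · right; rfl
  have e3 : ∀ p, affineSpan ℝ (V' p : Set (Fin d → ℝ)) = ⊤ := by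
    intro p
    simp only [hV', Finset.coe_image]
    exact (refl p.1).span_eq_top_of_surjective (fun y => ⟨refl p.1 y, refl_refl p.1 y⟩)
      (span_top _ (hV3 p.2) (hV4 p.2))
  have e4 : ∀ x ∈ cube d, ∃ p, x ∈ convexHull ℝ (V' p : Set (Fin d → ℝ)) := by
    intro x hx
    set F : Finset (Fin d) := univ.filter fun i => 1/2 < x i with hF
    have hy : ∀ i, 0 ≤ refl F x i ∧ refl F x i ≤ 1/2 := by
      intro i
      have := hx i
      rw [refl_apply]
      by_cases hi : 1/2 < x i
      · rw [if_pos (by simp only [hF, mem_filter, mem_univ, true_and]; exact hi)]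
        constructor <;> linarith
      · rw [if_neg (by simp only [hF, mem_filter, mem_univ, true_and]; exact hi)]
        push Not at hi
        exact ⟨this.1, hi⟩
    choose w hw using fun i => exists_letter (d := d) (refl F x i) (hy i).1 (hy i).2
    refine ⟨(F, w), ?_⟩
    have h8 := hV5 w (refl F x) (fun i => (hy i).2) hw
    simp only [hV', Finset.coe_image]
    rw [← AffineMap.image_convexHull]
    exact ⟨refl F x, h8, refl_refl F x⟩
  obtain ⟨N, W, h1, h2, h3⟩ := cover_of_sets V' (6 * d + 2) e1 e2 e3 e4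
  refine ⟨N, W, h1, h2, ?_⟩
  have h4 : (N : ℝ) ≤ (2 ^ d * (Fintype.card (Letter d)) ^ d) * 2 ^ (6 * d + 2) := by
    have : Fintype.card (Finset (Fin d) × (Fin d → Letter d))
        = 2 ^ d * (Fintype.card (Letter d)) ^ d := by
      rw [Fintype.card_prod, Fintype.card_finset, Fintype.card_fun]
      simp
    rw [this] at h3
    exact_mod_cast h3
  refine h4.trans ?_
  have h5 := card_letter_le d hd
  have h6 : (2 : ℝ) ^ d * 2 ^ (6 * d + 2) ≤ (2 ^ 9) ^ d := by
    rw [← pow_add, ← pow_mul]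
    exact pow_le_pow_right₀ (by norm_num) (by omega)
  have h7 : (0 : ℝ) ≤ Fintype.card (Letter d) := by positivity
  calc (2 ^ d * (Fintype.card (Letter d) : ℝ) ^ d) * 2 ^ (6 * d + 2)
      = (2 ^ d * 2 ^ (6 * d + 2)) * (Fintype.card (Letter d) : ℝ) ^ d := by ring
    _ ≤ (2 ^ 9) ^ d * (193 * Real.sqrt d) ^ d := by
        apply mul_le_mul h6 (pow_le_pow_left₀ h7 h5 d) (by positivity) (by positivity)
    _ = (2 ^ 9 * (193 * Real.sqrt d)) ^ d := (mul_pow _ _ _).symm
    _ ≤ _ := by
        apply pow_le_pow_left₀ (by positivity)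
        have : 0 ≤ Real.sqrt d := Real.sqrt_nonneg _
        nlinarith

end Helper40.CC
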