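import Pool.Agent.Helper40.CC.Had

/-!
# Few vertices of the cube whose convex hull contains a whole cell
-/

namespace Helper40.CC

open Finset

lemma cube_hull {d : ℕ} (a : Fin d → ℝ) (ha : ∀ i, 0 ≤ a i ∧ a i ≤ 1) :
    a ∈ convexHull ℝ {v : Fin d → ℝ | ∀ i, v i = 0 ∨ v i = 1} := by
  have h : {v : Fin d → ℝ | ∀ i, v i = 0 ∨ v i = 1} = Set.univ.pi fun _ => ({0, 1} : Set ℝ) := by
    ext v; simp
  rw [h, convexHull_pi]
  intro i _
  rw [convexHull_pair, segment_eq_Icc (by norm_num)]
  exact ha i

/-- Carathéodory: a point of the cube is in the hull of at most `d+1` vertices -/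
lemma cara {d : ℕ} (a : Fin d → ℝ) (ha : ∀ i, 0 ≤ a i ∧ a i ≤ 1) :
    ∃ A : Finset (Fin d → ℝ), A.card ≤ d + 1 ∧ (∀ v ∈ A, ∀ i, v i = 0 ∨ v i = 1) ∧
      a ∈ convexHull ℝ (A : Set (Fin d → ℝ)) := by
  have h := cube_hull a ha
  rw [convexHull_eq_union] at h
  simp only [exists_prop, Set.mem_iUnion] at h
  obtain ⟨A, h1, h2, h3⟩ := h
  refine ⟨A, ?_, fun v hv => h1 hv, h3⟩
  have h4 := h2.card_le_finrank_succ
  refine le_trans (le_of_eq ?_) (h4.trans ?_)
  · simp
  · have h5 := Submodule.finrank_le (vectorSpan ℝ (Set.range ((↑) : A → (Fin d → ℝ))))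
    simp only [Module.finrank_fintype_fun_eq_card, Fintype.card_fin] at h5
    omega

lemma sum_mem_of_zero_mem {E : Type*} [AddCommGroup E] [Module ℝ E] {K : Set E}
    (hK : Convex ℝ K) (h0 : (0 : E) ∈ K) {B : Type*} [Fintype B] (w : B → ℝ) (z : B → E)
    (hw : ∀ b, 0 ≤ w b) (hw1 : ∑ b, w b ≤ 1) (hz : ∀ b, z b ∈ K) : ∑ b, w b • z b ∈ K := by
  have h := hK.sum_mem (t := (univ : Finset (Option B)))
    (w := fun o => o.elim (1 - ∑ b, w b) w) (z := fun o => o.elim 0 z) ?_ ?_ ?_
  · rw [Fintype.sum_option] at h
    simpa using h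
  · rintro (_ | b) _
    · simpa using hw1
    · exact hw b
  · rw [Fintype.sum_option]
    simp
  · rintro (_ | b) _
    · exact h0
    · exact hz b

/-- the covering lemma: a cell given by labels, weights and a corner -/
theorem labelled {d : ℕ} {B : Type*} [Fintype B] [DecidableEq B] (lab : Fin d → B) (c : B → ℝ)
    (hc : ∀ b, 0 < c b) (hc1 : ∑ b, c b ≤ 1/2) (a : Fin d → ℝ) (ha : ∀ i, 0 ≤ a i ∧ a i ≤ 1/2) :
    ∃ V : Finset (Fin d → ℝ), V.card ≤ 6 * d + 2 ∧ (∀ v ∈ V, ∀ i, v i = 0 ∨ v i = 1) ∧
      (0 : Fin d → ℝ) ∈ V ∧ (∀ i, Pi.single i (1 : ℝ) ∈ V) ∧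
      ∀ x : Fin d → ℝ, (∀ b, ∑ i with lab i = b, (x i - a i - c b / 2) ^ 2 ≤ (c b) ^ 2 / 4) →
        x ∈ convexHull ℝ (V : Set (Fin d → ℝ)) := by
  classical
  obtain ⟨A, hA1, hA2, hA3⟩ := cara (fun i => 2 * a i) (fun i => by
    constructor <;> linarith [(ha i).1, (ha i).2])
  have hH : ∀ b, ∃ H : Finset (Fin d → ℝ), H.card ≤ 4 * (univ.filter fun i => lab i = b).card ∧
      (∀ h ∈ H, ∀ i, h i = 0 ∨ h i = 1) ∧
      ((univ.filter fun i => lab i = b).Nonempty → ∀ z : Fin d → ℝ, (∀ i, lab i ≠ b → z i = 0) →
        ∑ i with lab i = b, (z i - 1/2) ^ 2 ≤ 1/4 → z ∈ convexHull ℝ (H : Set (Fin d → ℝ))) := by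
    intro b
    rcases (univ.filter fun i => lab i = b).eq_empty_or_nonempty with h | h
    · exact ⟨∅, by simp, by simp, fun h' => absurd h (Finset.nonempty_iff_ne_empty.1 h')⟩
    · obtain ⟨H, h1, h2, h3⟩ := block _ h
      refine ⟨H, h1, h2, fun _ z hz => h3 z fun i hi => hz i ?_⟩
      simpa using hi
  choose H hH1 hH2 hH3 using hH
  set V : Finset (Fin d → ℝ) := A ∪ (insert 0 (univ.image fun i : Fin d => Pi.single i (1 : ℝ))
    ∪ univ.biUnion H) with hV
  have hAV : A ⊆ V := subset_union_left
  have hHV : ∀ b, H b ⊆ V := fun b => (Finset.subset_biUnion_of_mem H (mem_univ b)).trans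
    (subset_union_right.trans subset_union_right)
  have h0V : (0 : Fin d → ℝ) ∈ V := by simp [hV]
  refine ⟨V, ?_, ?_, h0V, ?_, ?_⟩
  · have h1 : (insert (0 : Fin d → ℝ) (univ.image fun i : Fin d => Pi.single i (1 : ℝ))).card
        ≤ d + 1 := by
      refine (Finset.card_insert_le _ _).trans ?_
      have := Finset.card_image_le (s := (univ : Finset (Fin d)))
        (f := fun i : Fin d => (Pi.single i (1 : ℝ) : Fin d → ℝ))
      simp only [card_univ, Fintype.card_fin] at this
      omega
    have h2 : (univ.biUnion H).card ≤ 4 * d := by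
      refine Finset.card_biUnion_le.trans ?_
      calc ∑ b, (H b).card ≤ ∑ b, 4 * (univ.filter fun i => lab i = b).card :=
            Finset.sum_le_sum fun b _ => hH1 b
        _ = 4 * d := by
            rw [← Finset.mul_sum, ← Finset.card_eq_sum_card_fiberwise (f := lab) (t := univ)]
            · simp
            · intro i _; simp
    have h3 : V.card ≤ _ := Finset.card_union_le A (insert 0 (univ.image fun i : Fin d =>
      Pi.single i (1 : ℝ)) ∪ univ.biUnion H)
    have h4 := Finset.card_union_le (insert 0 (univ.image fun i : Fin d => Pi.single i (1 : ℝ)))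
      (univ.biUnion H)
    omega
  · intro v hv i
    simp only [hV, mem_union, mem_insert, mem_image, mem_univ, true_and, mem_biUnion] at hv
    rcases hv with h | (h | ⟨j, rfl⟩) | ⟨b, hb⟩
    · exact hA2 v h i
    · left; rw [h]; rfl
    · by_cases hij : i = j
      · subst hij; right; simp
      · left; simp [hij]
    · exact hH2 b v hb i
  · intro i
    simp [hV]
  · intro x hx
    set K := convexHull ℝ (V : Set (Fin d → ℝ)) with hK
    have hKc : Convex ℝ K := convex_convexHull ℝ _
    have h0K : (0 : Fin d → ℝ) ∈ K := subset_convexHull ℝ _ (by exact_mod_cast h0V)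
    set z : B → Fin d → ℝ := fun b i => if lab i = b then (x i - a i) / c b else 0 with hz
    have hzK : ∀ b, z b ∈ K := by
      intro b
      rcases (univ.filter fun i => lab i = b).eq_empty_or_nonempty with h | h
      · have : z b = 0 := by
          ext i
          have hi : lab i ≠ b := by
            intro hi
            have : i ∈ univ.filter fun i => lab i = b := by simp [hi]
            rw [h] at this
            simp at this
          simp [hz, hi]
        rw [this]; exact h0K
      · refine convexHull_mono (by exact_mod_cast hHV b) (hH3 b h (z b) ?_ ?_)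
        · intro i hi; simp [hz, hi]
        · have h5 := hx b
          have h6 : ∑ i with lab i = b, (z b i - 1/2) ^ 2
              = (∑ i with lab i = b, (x i - a i - c b / 2) ^ 2) / (c b) ^ 2 := by
            rw [Finset.sum_div]
            refine Finset.sum_congr rfl fun i hi => ?_
            simp only [mem_filter, mem_univ, true_and] at hi
            have hcb := (hc b).ne'
            simp only [hz, hi, if_true]
            field_simp
          rw [h6, div_le_iff₀ (by have := hc b; positivity)]
          linarith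
    have hmem := sum_mem_of_zero_mem hKc h0K (B := Option B)
      (fun o => o.elim (1/2) c) (fun o => o.elim (fun i => 2 * a i) z) ?_ ?_ ?_
    · rw [Fintype.sum_option] at hmem
      convert hmem using 1
      ext i
      simp only [Option.elim, Pi.add_apply, Finset.sum_apply, Pi.smul_apply, smul_eq_mul]
      have h7 : ∀ b, c b * z b i = if lab i = b then x i - a i else 0 := by
        intro b
        have hcb := (hc b).ne'
        simp only [hz]
        split_ifs
        · field_simp
        · simp
      simp_rw [h7]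
      simp
    · rintro (_ | b)
      · simp
      · exact (hc b).le
    · rw [Fintype.sum_option]
      simp only [Option.elim]
      linarith
    · rintro (_ | b)
      · exact convexHull_mono (by exact_mod_cast hAV) hA3
      · exact hzK b

end Helper40.CC
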