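import Mathlib

/-!
# Sylvester matrices and the block lemma

For a nonempty finite set `S` of coordinates there are at most `4 |S|` points of `{0,1}^ι`,
supported on `S`, whose convex hull contains every point supported on `S` at Euclidean distance
at most `1/2` from the centre of the cube `[0,1]^S`.
-/

namespace Helper40.CC

open Finset

/-- the entry `(T,j)` of the Sylvester matrix of order `2^r` -/
noncomputable def chi {r : ℕ} (T j : Fin r → Bool) : ℝ := ∏ l, (if T l && j l then (-1 : ℝ) else 1)

lemma chi_eq {r : ℕ} (T j : Fin r → Bool) : chi T j = 1 ∨ chi T j = -1 := by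
  unfold chi
  refine Finset.prod_induction _ (fun x => x = 1 ∨ x = -1) ?_ (Or.inl rfl) ?_
  · rintro a b (rfl | rfl) (rfl | rfl) <;> simp
  · intro l _
    split_ifs
    · right; rfl
    · left; rfl

lemma chi_sq {r : ℕ} (T j : Fin r → Bool) : chi T j * chi T j = 1 := by
  rcases chi_eq T j with h | h <;> rw [h] <;> norm_num

lemma chi_orth {r : ℕ} (j j' : Fin r → Bool) :
    ∑ T, chi T j * chi T j' = if j = j' then (2 : ℝ) ^ r else 0 := by
  unfold chi
  simp_rw [← Finset.prod_mul_distrib]
  rw [← Fintype.prod_sum (fun l (b : Bool) =>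
    (if b && j l then (-1 : ℝ) else 1) * (if b && j' l then (-1 : ℝ) else 1))]
  have h : ∀ l, ∑ b : Bool, (if b && j l then (-1 : ℝ) else 1) * (if b && j' l then (-1 : ℝ) else 1)
      = if j l = j' l then 2 else 0 := by
    intro l
    rcases j l <;> rcases j' l <;> simp <;> norm_num
  simp_rw [h]
  split_ifs with hj
  · subst hj; simp
  · obtain ⟨l, hl⟩ := Function.ne_iff.1 hj
    exact Finset.prod_eq_zero (mem_univ l) (by simp [hl])

lemma chi_symm {r : ℕ} (T j : Fin r → Bool) : chi T j = chi j T := by
  unfold chi
  refine Finset.prod_congr rfl fun l _ => ?_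
  rw [Bool.and_comm]

/-- the vertex with label `(T, e)` on the block `S` -/
noncomputable def hv {ι : Type*} [DecidableEq ι] (S : Finset ι) {r : ℕ} (φ : ι → (Fin r → Bool))
    (T : Fin r → Bool) (e : Bool) : ι → ℝ :=
  fun i => if i ∈ S then (1 + (if e then 1 else -1) * chi T (φ i)) / 2 else 0

lemma hv_mem {ι : Type*} [DecidableEq ι] (S : Finset ι) {r : ℕ} (φ : ι → (Fin r → Bool))
    (T : Fin r → Bool) (e : Bool) (i : ι) : hv S φ T e i = 0 ∨ hv S φ T e i = 1 := by
  unfold hv
  split_ifs with h1 h2
  · rcases chi_eq T (φ i) with h | h <;> rw [h] <;> norm_num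
  · rcases chi_eq T (φ i) with h | h <;> rw [h] <;> norm_num
  · left; rfl

/-- the block lemma -/
theorem block {ι : Type*} [Fintype ι] [DecidableEq ι] (S : Finset ι) (hS : S.Nonempty) :
    ∃ H : Finset (ι → ℝ), H.card ≤ 4 * S.card ∧ (∀ h ∈ H, ∀ i, h i = 0 ∨ h i = 1) ∧
      ∀ z : ι → ℝ, (∀ i, i ∉ S → z i = 0) → ∑ i ∈ S, (z i - 1/2) ^ 2 ≤ 1/4 →
        z ∈ convexHull ℝ (H : Set (ι → ℝ)) := by
  classical
  set n := S.card with hn
  have hn1 : 1 ≤ n := hS.card_pos
  set r := Nat.clog 2 n with hr
  have h1 : n ≤ 2 ^ r := Nat.le_pow_clog (by norm_num) n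
  have h2 : 2 ^ r ≤ 2 * n := by
    rcases Nat.eq_or_lt_of_le hn1 with h | h
    · rw [hr, ← h]; simp
    · have h3 : 2 ^ (r - 1) < n := Nat.pow_pred_clog_lt_self (by norm_num) h
      have h4 : 1 ≤ r := Nat.clog_pos (by norm_num) h
      obtain ⟨m, hm⟩ : ∃ m, r = m + 1 := ⟨r - 1, by omega⟩
      rw [hm] at h3 ⊢
      simp only [Nat.add_sub_cancel] at h3
      rw [pow_succ]; omega
  have hcard : S.card ≤ Fintype.card (Fin r → Bool) := by
    simpa using h1
  -- an injection of `S`
  obtain ⟨φ, hφ⟩ : ∃ φ : ι → (Fin r → Bool), Set.InjOn φ S := by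
    obtain ⟨g⟩ : Nonempty (S ↪ (Fin r → Bool)) := by
      apply Function.Embedding.nonempty_of_card_le
      simpa using h1
    refine ⟨fun i => if h : i ∈ S then g ⟨i, h⟩ else fun _ => false, ?_⟩
    intro i hi j hj hij
    simp only [Finset.mem_coe] at hi hj
    simp only [hi, hj, dif_pos] at hij
    have := g.injective hij
    simpa using this
  refine ⟨(univ : Finset ((Fin r → Bool) × Bool)).image (fun p => hv S φ p.1 p.2), ?_, ?_, ?_⟩
  · refine Finset.card_image_le.trans ?_
    simp only [card_univ, Fintype.card_prod, Fintype.card_fun, Fintype.card_bool, Fintype.card_fin]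
    omega
  · intro h hh i
    obtain ⟨p, -, rfl⟩ := Finset.mem_image.1 hh
    exact hv_mem S φ p.1 p.2 i
  · intro z hz0 hz
    set B : ℝ := 2 ^ r with hB
    have hB0 : 0 < B := by positivity
    -- coefficients
    set q : ι → ℝ := fun i => z i - 1/2 with hq
    set c : (Fin r → Bool) → ℝ := fun T => 2 / B * ∑ i ∈ S, q i * chi T (φ i) with hc
    have hrec : ∀ i ∈ S, ∑ T, c T * chi T (φ i) = 2 * q i := by
      intro i hi
      calc ∑ T, c T * chi T (φ i)
          = 2 / B * ∑ i' ∈ S, q i' * ∑ T, chi T (φ i') * chi T (φ i) := by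
            simp only [hc, Finset.mul_sum, Finset.sum_mul]
            rw [Finset.sum_comm]
            refine Finset.sum_congr rfl fun i' _ => Finset.sum_congr rfl fun T _ => ?_
            ring
        _ = 2 / B * ∑ i' ∈ S, q i' * (if i' = i then B else 0) := by
            congr 1
            refine Finset.sum_congr rfl fun i' hi' => ?_
            rw [chi_orth]
            congr 1
            by_cases h : i' = i
            · subst h; simp [hB]
            · rw [if_neg h, if_neg]
              intro h'
              exact h (hφ hi' hi h')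
        _ = 2 * q i := by
            simp only [mul_ite, mul_zero, Finset.sum_ite_eq', hi, if_true]
            field_simp
    have hsq : ∑ T, c T ^ 2 = 4 / B * ∑ i ∈ S, q i ^ 2 := by
      calc ∑ T, c T ^ 2 = ∑ T, (2 / B * ∑ i ∈ S, q i * chi T (φ i)) * c T := by
            refine Finset.sum_congr rfl fun T _ => ?_
            rw [sq]
        _ = 2 / B * ∑ i ∈ S, q i * ∑ T, c T * chi T (φ i) := by
            simp only [Finset.mul_sum, Finset.sum_mul]
            rw [Finset.sum_comm]
            refine Finset.sum_congr rfl fun i' _ => Finset.sum_congr rfl fun T _ => ?_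
            ring
        _ = 2 / B * ∑ i ∈ S, q i * (2 * q i) := by
            congr 1
            refine Finset.sum_congr rfl fun i hi => ?_
            rw [hrec i hi]
        _ = _ := by
            rw [Finset.mul_sum, Finset.mul_sum]
            refine Finset.sum_congr rfl fun i _ => ?_
            ring
    have hle : ∑ T, |c T| ≤ 1 := by
      have h3 : (∑ T, |c T|) ^ 2 ≤ 1 := by
        have h4 := sq_sum_le_card_mul_sum_sq (s := (univ : Finset (Fin r → Bool)))
          (f := fun T => |c T|)
        simp only [sq_abs] at h4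
        rw [hsq] at h4
        have h5 : (((univ : Finset (Fin r → Bool)).card : ℕ) : ℝ) = B := by
          simp [hB]
        rw [h5] at h4
        refine h4.trans ?_
        have h6 : B * (4 / B * ∑ i ∈ S, q i ^ 2) = 4 * ∑ i ∈ S, q i ^ 2 := by
          field_simp
        rw [h6]
        linarith
      have h0 : 0 ≤ ∑ T, |c T| := Finset.sum_nonneg fun T _ => abs_nonneg _
      nlinarith
    -- weights
    set D : ℝ := (1 - ∑ T, |c T|) / (2 * B) with hD
    have hD0 : 0 ≤ D := div_nonneg (by linarith) (by positivity)
    set w : (Fin r → Bool) × Bool → ℝ := fun p =>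
      (|c p.1| + (if p.2 then 1 else -1) * c p.1) / 2 + D with hw
    have hw0 : ∀ p, 0 ≤ w p := by
      intro p
      have h7 : 0 ≤ |c p.1| + (if p.2 then 1 else -1) * c p.1 := by
        split_ifs
        · linarith [neg_abs_le (c p.1)]
        · linarith [le_abs_self (c p.1)]
      simp only [hw]
      linarith
    have hw1 : ∑ p, w p = 1 := by
      rw [Fintype.sum_prod_type]
      simp only [hw, Fintype.sum_bool, if_true, Bool.false_eq_true, if_false]
      have h8 : ∀ T, (|c T| + 1 * c T) / 2 + D + ((|c T| + -1 * c T) / 2 + D) = |c T| + 2 * D := by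
        intro T; ring
      simp_rw [h8]
      rw [Finset.sum_add_distrib]
      simp only [Finset.sum_const, card_univ, Fintype.card_fun, Fintype.card_bool,
        Fintype.card_fin, nsmul_eq_mul, Nat.cast_pow, Nat.cast_ofNat]
      rw [hD, ← hB]
      field_simp
      ring
    have hz1 : ∑ p, w p • hv S φ p.1 p.2 = z := by
      ext i
      simp only [Finset.sum_apply, Pi.smul_apply, smul_eq_mul]
      by_cases hi : i ∈ S
      · rw [Fintype.sum_prod_type]
        simp only [hw, hv, hi, if_true, Fintype.sum_bool, Bool.false_eq_true, if_false]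
        have h9 : ∀ T, ((|c T| + 1 * c T) / 2 + D) * ((1 + 1 * chi T (φ i)) / 2) +
            ((|c T| + -1 * c T) / 2 + D) * ((1 + -1 * chi T (φ i)) / 2)
            = (|c T| + 2 * D) / 2 + c T * chi T (φ i) / 2 := by
          intro T; ring
        simp_rw [h9]
        rw [Finset.sum_add_distrib, ← Finset.sum_div, ← Finset.sum_div, hrec i hi,
          Finset.sum_add_distrib]
        simp only [Finset.sum_const, card_univ, Fintype.card_fun, Fintype.card_bool,
          Fintype.card_fin, nsmul_eq_mul, Nat.cast_pow, Nat.cast_ofNat]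
        rw [hD, ← hB]
        simp only [hq]
        field_simp
        ring
      · rw [hz0 i hi]
        refine Finset.sum_eq_zero fun p _ => ?_
        simp [hv, hi]
    rw [← hz1]
    refine (convex_convexHull ℝ _).sum_mem (fun p _ => hw0 p) hw1 fun p _ => ?_
    apply subset_convexHull
    simp only [Finset.coe_image, Finset.coe_univ, Set.image_univ]
    exact ⟨p, rfl⟩

end Helper40.CC
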