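import Pool.Agent.Helper67.CubeHad
import Pool.Agent.Helper67.CubeCover

/-!
# The lower bound `(2 sqrt(d) / 3)^d`
-/

namespace Helper40.CC

open Helper67.Cube

/-- ratio inequality -/
lemma ratio_ineq (d : ℕ) (hd : 1 ≤ d) : (d + 2) ^ (d + 2) ≤ 9 * (d + 1) ^ 2 * d ^ d := by
  rcases Nat.lt_or_ge d 9 with h | h
  · interval_cases d <;> norm_num
  · have h0 : (0 : ℝ) < d := by
      have : 0 < d := by omega
      exact_mod_cast this
    have h9 : (9 : ℝ) ≤ d := by exact_mod_cast h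
    have h1 : (1 + 2 / (d : ℝ)) ^ d ≤ Real.exp 2 := by
      calc (1 + 2 / (d : ℝ)) ^ d ≤ (Real.exp (2 / d)) ^ d := by
            apply pow_le_pow_left₀ (by positivity)
            have := Real.add_one_le_exp (2 / (d : ℝ))
            linarith
        _ = Real.exp 2 := by
            rw [← Real.exp_nat_mul]
            congr 1
            field_simp
    have h2 : Real.exp 2 ≤ 7.4 := by
      have h3 : Real.exp 2 = (Real.exp 1) ^ 2 := by
        rw [← Real.exp_nat_mul]; norm_num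
      rw [h3]
      have h4 := Real.exp_one_lt_d9
      have h5 := Real.exp_pos 1
      nlinarith
    have h3 : ((d : ℝ) + 2) ^ (d + 2) ≤ 9 * ((d : ℝ) + 1) ^ 2 * (d : ℝ) ^ d := by
      have h4 : ((d : ℝ) + 2) ^ d = (1 + 2 / (d : ℝ)) ^ d * (d : ℝ) ^ d := by
        rw [← mul_pow]; congr 1; field_simp
      have h6 : (0 : ℝ) < (d : ℝ) ^ d := by positivity
      calc ((d : ℝ) + 2) ^ (d + 2) = ((1 + 2 / (d : ℝ)) ^ d * (d : ℝ) ^ d) * ((d : ℝ) + 2) ^ 2 := by
            rw [pow_add, h4]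
        _ ≤ (7.4 * (d : ℝ) ^ d) * ((d : ℝ) + 2) ^ 2 := by
            gcongr
            exact h1.trans h2
        _ = (7.4 * ((d : ℝ) + 2) ^ 2) * (d : ℝ) ^ d := by ring
        _ ≤ (9 * ((d : ℝ) + 1) ^ 2) * (d : ℝ) ^ d := by
            apply mul_le_mul_of_nonneg_right _ h6.le
            nlinarith
    exact_mod_cast h3

lemma fact_ineq (d : ℕ) (hd : 1 ≤ d) : d ^ d * (d + 1) ^ (d + 1) ≤ 9 ^ d * d.factorial ^ 2 := by
  induction d, hd using Nat.le_induction with
  | base => norm_num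
  | succ d hd ih =>
    have h := ratio_ineq d hd
    have hpos : 0 < d ^ d := by positivity
    refine Nat.le_of_mul_le_mul_left (c := d ^ d) ?_ hpos
    calc d ^ d * ((d + 1) ^ (d + 1) * (d + 1 + 1) ^ (d + 1 + 1))
        = (d ^ d * (d + 1) ^ (d + 1)) * (d + 2) ^ (d + 2) := by ring
      _ ≤ (9 ^ d * d.factorial ^ 2) * (9 * (d + 1) ^ 2 * d ^ d) := Nat.mul_le_mul ih h
      _ = d ^ d * (9 ^ (d + 1) * (d + 1).factorial ^ 2) := by
          rw [Nat.factorial_succ]; ring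

lemma had_mono (d : ℕ) : ∀ n, n ≤ d → 4 ^ d * (n + 1) ^ (n + 1) ≤ 4 ^ n * (d + 1) ^ (d + 1) := by
  induction d with
  | zero => intro n hn; have : n = 0 := by omega
            subst this; norm_num
  | succ d ih =>
    intro n hn
    rcases Nat.eq_or_lt_of_le hn with h | h
    · rw [h]
    · have h1 := ih n (by omega)
      have h2 : 4 * (d + 1) ^ (d + 1) ≤ (d + 2) ^ (d + 2) := by
        have h3 : 2 * (d + 1) ^ (d + 1) ≤ (d + 2) ^ (d + 1) := by
          have h7 := one_add_mul_le_pow (a := (1 : ℚ) / (d + 1)) (by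
            have : (0 : ℚ) ≤ 1 / (d + 1) := by positivity
            linarith) (d + 1)
          have h8 : (1 : ℚ) + ((d + 1 : ℕ) : ℚ) * (1 / (d + 1)) = 2 := by
            push_cast; field_simp; norm_num
          rw [h8] at h7
          have h9 : (2 : ℚ) * (d + 1) ^ (d + 1) ≤ (d + 2) ^ (d + 1) := by
            have h10 : ((d : ℚ) + 2) ^ (d + 1) = (1 + 1 / (d + 1)) ^ (d + 1) * (d + 1) ^ (d + 1) := by
              rw [← mul_pow]; congr 1; field_simp; ring
            rw [h10]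
            exact mul_le_mul_of_nonneg_right h7 (by positivity)
          exact_mod_cast h9
        calc 4 * (d + 1) ^ (d + 1) = 2 * (2 * (d + 1) ^ (d + 1)) := by ring
          _ ≤ (d + 2) * (d + 2) ^ (d + 1) := Nat.mul_le_mul (by omega) h3
          _ = _ := by ring
      calc 4 ^ (d + 1) * (n + 1) ^ (n + 1) = 4 * (4 ^ d * (n + 1) ^ (n + 1)) := by ring
        _ ≤ 4 * (4 ^ n * (d + 1) ^ (d + 1)) := Nat.mul_le_mul_left _ h1
        _ = 4 ^ n * (4 * (d + 1) ^ (d + 1)) := by ring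
        _ ≤ 4 ^ n * (d + 2) ^ (d + 2) := Nat.mul_le_mul_left _ h2
        _ = _ := by ring

/-- the lower bound -/
theorem lower (d : ℕ) (hd : 1 ≤ d) (N : ℕ) (W : Fin N → Fin (d+1) → Fin d → ℝ) (hW : IsCover W) :
    (2 / 3 * Real.sqrt d) ^ d ≤ N := by
  rcases Nat.eq_or_lt_of_le hd with h | h
  · subst h
    have hN : 1 ≤ N := by
      rcases Nat.eq_zero_or_pos N with h0 | h0
      · subst h0
        have h1 := hW.2
        have h2 : (fun _ => 0 : Fin 1 → ℝ) ∈ cube 1 := fun i => by norm_num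
        rw [← h1] at h2
        simp at h2
      · exact h0
    have hN' : (1 : ℝ) ≤ N := by exact_mod_cast hN
    simp only [Nat.cast_one, Real.sqrt_one, mul_one, pow_one]
    linarith
  · obtain ⟨m, rfl⟩ : ∃ m, d = m + 1 := ⟨d - 1, by omega⟩
    set s : ℝ := Real.sqrt (((m + 1 + 1 : ℕ) : ℝ) ^ (m + 1 + 1) / 4 ^ (m + 1)) with hs
    have hs0 : 0 < s := Real.sqrt_pos.2 (by positivity)
    have hs2 : s ^ 2 = ((m + 1 + 1 : ℕ) : ℝ) ^ (m + 1 + 1) / 4 ^ (m + 1) :=
      Real.sq_sqrt (by positivity)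
    have hb := cover_bound (by omega) W hW (1 / s) 0 (by positivity) le_rfl ?_
    · -- compare
      have hN : ((m + 1).factorial : ℝ) / s ≤ N := by
        refine le_trans (le_of_eq ?_) hb
        ring
      have hf := fact_ineq (m + 1) hd
      have hf' : ((m + 1 : ℕ) : ℝ) ^ (m + 1) * ((m + 1 + 1 : ℕ) : ℝ) ^ (m + 1 + 1)
          ≤ 9 ^ (m + 1) * ((m + 1).factorial : ℝ) ^ 2 := by exact_mod_cast hf
      refine le_trans ?_ hN
      rw [le_div_iff₀ hs0]
      have hnn : 0 ≤ (2 / 3 * Real.sqrt ((m + 1 : ℕ) : ℝ)) ^ (m + 1) * s := by positivity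
      refine le_of_sq_le_sq ?_ (by positivity)
      calc ((2 / 3 * Real.sqrt ((m + 1 : ℕ) : ℝ)) ^ (m + 1) * s) ^ 2
          = ((2 / 3 * Real.sqrt ((m + 1 : ℕ) : ℝ)) ^ 2) ^ (m + 1) * s ^ 2 := by
            rw [mul_pow, ← pow_mul, ← pow_mul, mul_comm 2 (m + 1)]
        _ = (4 / 9 * ((m + 1 : ℕ) : ℝ)) ^ (m + 1) *
            (((m + 1 + 1 : ℕ) : ℝ) ^ (m + 1 + 1) / 4 ^ (m + 1)) := by
            rw [hs2, mul_pow, Real.sq_sqrt (by positivity)]
            norm_num
        _ = (((m + 1 : ℕ) : ℝ) ^ (m + 1) * ((m + 1 + 1 : ℕ) : ℝ) ^ (m + 1 + 1)) / 9 ^ (m + 1) := by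
            rw [mul_pow, div_pow]
            field_simp
        _ ≤ _ := by
            rw [div_le_iff₀ (by positivity)]
            linarith
    · intro k hk
      have h1 := hadamard01 (m + 1 - k)
      have h2 := had_mono (m + 1) (m + 1 - k) (by omega)
      have h3 : 4 ^ (m + 1) * (maxDet (m + 1 - k)) ^ 2 ≤ (m + 1 + 1) ^ (m + 1 + 1) := by
        refine Nat.le_of_mul_le_mul_left (c := 4 ^ (m + 1 - k)) ?_ (by positivity)
        calc 4 ^ (m + 1 - k) * (4 ^ (m + 1) * (maxDet (m + 1 - k)) ^ 2)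
            = 4 ^ (m + 1) * (4 ^ (m + 1 - k) * (maxDet (m + 1 - k)) ^ 2) := by ring
          _ ≤ 4 ^ (m + 1) * (m + 1 - k + 1) ^ (m + 1 - k + 1) := Nat.mul_le_mul_left _ h1
          _ ≤ _ := h2
      have h4 : (maxDet (m + 1 - k) : ℝ) ≤ s := by
        refine Real.le_sqrt_of_sq_le ?_
        rw [le_div_iff₀ (by positivity)]
        have : ((4 : ℝ) ^ (m + 1) * (maxDet (m + 1 - k) : ℝ) ^ 2) ≤
            ((m + 1 + 1 : ℕ) : ℝ) ^ (m + 1 + 1) := by exact_mod_cast h3
        linarith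
      rw [mul_zero, add_zero, one_div_mul_eq_div]
      exact (div_le_one hs0).2 h4

end Helper40.CC
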