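import Pool.Agent.Helper40.CC.Cov

/-!
# Letters, words and cells
-/

namespace Helper40.CC

open Finset

/-- number of levels -/
def lev (d : ℕ) : ℕ := Nat.sqrt d + 1

/-- block size at level `k` -/
def bs (d k : ℕ) : ℕ := d / 4 ^ k + 1

/-- number of letters at level `k` -/
def nl (d k : ℕ) : ℕ := 32 * (Nat.sqrt (bs d k) + 1)

/-- the alphabet: `none` for tiny coordinates, `⟨k, n⟩` for coordinates of size about `16^(-k)` -/
abbrev Letter (d : ℕ) : Type := Option (Σ k : Fin (lev d), Fin (nl d k))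

/-- the labels of the blocks -/
abbrev Lab (d : ℕ) : Type := Fin d ⊕ (Σ k : Fin (lev d), Fin (4 ^ (k : ℕ)))

/-- mesh at level `k` -/
noncomputable def mesh (d k : ℕ) : ℝ := 1 / (16 ^ k * nl d k)

/-- the corner of a letter -/
noncomputable def corner {d : ℕ} : Letter d → ℝ
  | none => 0
  | some ⟨k, n⟩ => n * mesh d k

/-- `t` has the letter -/
def Good {d : ℕ} : Letter d → ℝ → Prop
  | none, t => 0 ≤ t ∧ t ≤ 1 / 16 ^ (lev d)
  | some ⟨k, n⟩, t => n * mesh d k + 1 / 16 ^ ((k : ℕ) + 1) / 2 ≤ t ∧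
      t ≤ n * mesh d k + 1 / 16 ^ ((k : ℕ) + 1) / 2 + mesh d k

/-- the weight of a label -/
noncomputable def wt {d : ℕ} : Lab d → ℝ
  | Sum.inl _ => 1 / 16 ^ (lev d)
  | Sum.inr ⟨k, _⟩ => 1 / 16 ^ ((k : ℕ) + 1)

lemma nl_pos (d k : ℕ) : 0 < nl d k := by unfold nl; omega

lemma mesh_pos (d k : ℕ) : 0 < mesh d k := by
  unfold mesh
  have : (0 : ℝ) < nl d k := by exact_mod_cast nl_pos d k
  positivity

lemma wt_pos {d : ℕ} (b : Lab d) : 0 < wt b := by
  rcases b with i | ⟨k, b⟩ <;> simp only [wt] <;> positivity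

lemma exists_letter {d : ℕ} (t : ℝ) (h0 : 0 ≤ t) (h1 : t ≤ 1/2) : ∃ l : Letter d, Good l t := by
  by_cases ht : t ≤ 1 / 16 ^ (lev d)
  · exact ⟨none, h0, ht⟩
  · push Not at ht
    have hex : ∃ k, (1 : ℝ) / 16 ^ (k+1) ≤ t := ⟨Nat.sqrt d, ht.le⟩
    classical
    set k := Nat.find hex with hk
    have hk1 : (1 : ℝ) / 16 ^ (k+1) ≤ t := Nat.find_spec hex
    have hk2 : k < lev d := by
      have : k ≤ Nat.sqrt d := Nat.find_min' hex ht.le
      unfold lev; omega
    have hk3 : t < 1 / 16 ^ k := by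
      rcases Nat.eq_zero_or_pos k with h | h
      · rw [h]; simp; linarith
      · obtain ⟨m, hm⟩ : ∃ m, k = m + 1 := ⟨k - 1, by omega⟩
        have := Nat.find_min hex (m := m) (by rw [← hk]; omega)
        push Not at this
        rw [hm]; exact this
    have hm0 := mesh_pos d k
    set y : ℝ := (t - 1 / 16 ^ (k+1) / 2) / mesh d k with hy
    have hp : (0 : ℝ) < 1 / 16 ^ (k+1) := by positivity
    have hy0 : 0 ≤ y := div_nonneg (by linarith) hm0.le
    have hy1 : y < nl d k := by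
      rw [hy, div_lt_iff₀ hm0]
      have h2 : (nl d k : ℝ) * mesh d k = 1 / 16 ^ k := by
        have : (0 : ℝ) < nl d k := by exact_mod_cast nl_pos d k
        unfold mesh
        field_simp
      rw [h2]; linarith
    have hn : ⌊y⌋₊ < nl d k := (Nat.floor_lt hy0).2 hy1
    refine ⟨some ⟨⟨k, hk2⟩, ⟨⌊y⌋₊, hn⟩⟩, ?_⟩
    have h3 : (⌊y⌋₊ : ℝ) ≤ y := Nat.floor_le hy0
    have h4 : y < ⌊y⌋₊ + 1 := Nat.lt_floor_add_one y
    have h5 : y * mesh d k = t - 1 / 16 ^ (k+1) / 2 := by
      rw [hy, div_mul_cancel₀ _ hm0.ne']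
    simp only [Good]
    constructor
    · nlinarith
    · nlinarith

/-- the level of a letter -/
def lvl {d : ℕ} : Letter d → Option (Fin (lev d)) := Option.map Sigma.fst

/-- rank of a coordinate among those of its level -/
def rk {d : ℕ} (w : Fin d → Letter d) (i : Fin d) : ℕ :=
  (univ.filter fun j => j < i ∧ lvl (w j) = lvl (w i)).card

lemma rk_lt {d : ℕ} (w : Fin d → Letter d) (i : Fin d) : rk w i < d := by
  unfold rk
  refine lt_of_le_of_lt (Finset.card_le_card (t := Finset.Iio i) ?_) ?_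
  · intro j hj
    simp only [mem_filter, mem_univ, true_and] at hj
    simpa using hj.1
  · simp

lemma rk_lt_rk {d : ℕ} (w : Fin d → Letter d) {i j : Fin d} (hij : i < j)
    (h : lvl (w i) = lvl (w j)) : rk w i < rk w j := by
  unfold rk
  refine Finset.card_lt_card ?_
  rw [Finset.ssubset_iff_of_subset]
  · refine ⟨i, by simp [hij, h], by simp⟩
  · intro l hl
    simp only [mem_filter, mem_univ, true_and] at hl ⊢
    exact ⟨hl.1.trans hij, hl.2.trans h⟩

lemma rk_div_lt {d : ℕ} (w : Fin d → Letter d) (i : Fin d) (k : ℕ) : rk w i / bs d k < 4 ^ k := by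
  refine Nat.div_lt_of_lt_mul ?_
  have h1 := rk_lt w i
  have h2 := Nat.lt_mul_div_succ d (b := 4 ^ k) (by positivity)
  unfold bs
  rw [mul_comm]
  exact h1.trans h2

/-- the label of a coordinate -/
def lab {d : ℕ} (w : Fin d → Letter d) (i : Fin d) : Lab d :=
  match w i with
  | none => Sum.inl i
  | some ⟨k, _⟩ => Sum.inr ⟨k, ⟨rk w i / bs d k, rk_div_lt w i k⟩⟩

lemma lab_inl {d : ℕ} (w : Fin d → Letter d) (i j : Fin d) (h : lab w i = Sum.inl j) :
    i = j ∧ w i = none := by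
  unfold lab at h
  rcases hw : w i with _ | ⟨k, n⟩
  · rw [hw] at h
    exact ⟨by simpa using h, rfl⟩
  · rw [hw] at h
    simp at h

lemma lab_inr {d : ℕ} (w : Fin d → Letter d) (i : Fin d) (k : Fin (lev d)) (b : Fin (4 ^ (k : ℕ)))
    (h : lab w i = Sum.inr ⟨k, b⟩) :
    (∃ n, w i = some ⟨k, n⟩) ∧ rk w i / bs d k = b := by
  unfold lab at h
  rcases hw : w i with _ | ⟨k', n⟩
  · rw [hw] at h
    simp at h
  · rw [hw] at h
    simp only [Sum.inr.injEq, Sigma.mk.injEq] at h
    obtain ⟨h1, h2⟩ := h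
    subst h1
    refine ⟨⟨n, rfl⟩, ?_⟩
    rw [heq_eq_eq] at h2
    rw [← h2]

lemma fiber_card {d : ℕ} (w : Fin d → Letter d) (k : Fin (lev d)) (b : Fin (4 ^ (k : ℕ))) :
    (univ.filter fun i => lab w i = Sum.inr ⟨k, b⟩).card ≤ bs d k := by
  have hpos : 0 < bs d k := Nat.succ_pos _
  have h : (univ.filter fun i => lab w i = Sum.inr ⟨k, b⟩).card ≤
      (Finset.Ico ((b : ℕ) * bs d k) ((b : ℕ) * bs d k + bs d k)).card := by
    refine Finset.card_le_card_of_injOn (rk w) ?_ ?_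
    · intro i hi
      simp only [coe_filter, mem_univ, true_and, Set.mem_ofPred_eq] at hi
      have := (lab_inr w i k b hi).2
      rw [Finset.coe_Ico, Set.mem_Ico]
      rw [Nat.div_eq_iff hpos] at this
      omega
    · intro i hi j hj hij
      simp only [coe_filter, mem_univ, true_and, Set.mem_ofPred_eq] at hi hj
      obtain ⟨⟨n, hn⟩, -⟩ := lab_inr w i k b hi
      obtain ⟨⟨m, hm⟩, -⟩ := lab_inr w j k b hj
      have hl : lvl (w i) = lvl (w j) := by rw [hn, hm]; rfl
      rcases lt_trichotomy i j with h | h | h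
      · exact absurd hij (rk_lt_rk w h hl).ne
      · exact h
      · exact absurd hij (rk_lt_rk w h hl.symm).ne'
  simpa using h

end Helper40.CC
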